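import Pool.Agent.Q4.SPC.Stm
import Pool.Agent.Q4.GLC.Per

/-!
# Project SPC (helper4), job SE2: additive functions on `Sp_{2n}(O_v)` vanish (helper5)
-/

set_option autoImplicit false

open IsDedekindDomain NumberField Matrix Q4.GLC

noncomputable section

namespace Pool.Agent.Q5.SPC

open Q4.SPC
open Q4.GLC.Cnt (Ov kap ev residue_eq_zero card_kap fin_kap)

variable {F : Type} [Field F] [NumberField F] {n : ℕ}

theorem mext (X Y : Matrix (Fin n ⊕ Fin n) (Fin n ⊕ Fin n) (Af F))
    (h : ∀ w, X.map (ev w) = Y.map (ev w)) : X = Y := by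
  refine Matrix.ext fun i j => ?_
  apply FiniteAdeleRing.ext
  intro w
  exact congrFun (congrFun (h w) i) j

theorem sp_ext {x y : Sp n (Af F)} (h : ∀ w, comp F n w x = comp F n w y) : x = y := by
  refine Subtype.ext (mext _ _ fun w => ?_)
  exact congrArg Subtype.val (h w)

theorem J_map {R R' : Type} [CommRing R] [CommRing R'] (f : R →+* R') :
    (J (Fin n) R).map f = J (Fin n) R' := by
  rw [J, J, fromBlocks_map]
  congr 1
  · exact Matrix.map_zero f (map_zero f)
  · ext i j
    simp [Matrix.one_apply]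
  · exact Matrix.map_one f (map_zero f) (map_one f)
  · exact Matrix.map_zero f (map_zero f)

/-- gluing of integral components -/
theorem glue (g : (w : Pl F) → Sp n (w.adicCompletion F))
    (h : ∀ w i j, Valued.v ((g w).1 i j) ≤ 1) :
    ∃ x : Sp n (Af F), ∀ w, comp F n w x = g w := by
  let X : Matrix (Fin n ⊕ Fin n) (Fin n ⊕ Fin n) (Af F) := fun i j =>
    (⟨fun w => (g w).1 i j, Filter.Eventually.of_forall fun w => h w i j⟩ : Af F)
  have hX : ∀ w, X.map (ev w) = (g w).1 := fun w => rfl
  have hmem : X ∈ Matrix.symplecticGroup (Fin n) (Af F) := by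
    rw [SymplecticGroup.mem_iff]
    apply mext
    intro w
    rw [Matrix.map_mul, Matrix.map_mul, J_map, Matrix.transpose_map, hX]
    exact SymplecticGroup.mem_iff.1 (g w).2
  exact ⟨⟨X, hmem⟩, fun w => Subtype.ext (hX w)⟩

theorem one_int (w : Pl F) (i j : Fin n ⊕ Fin n) :
    Valued.v ((1 : Matrix (Fin n ⊕ Fin n) (Fin n ⊕ Fin n) (w.adicCompletion F)) i j) ≤ 1 := by
  rw [Matrix.one_apply]
  split_ifs
  · rw [map_one]
  · rw [map_zero]; exact zero_le_one

open scoped Classical in
/-- the components of an extension by `1` -/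
def fam (v : Pl F) (A : Sp n (Ov v)) : (w : Pl F) → Sp n (w.adicCompletion F) :=
  Function.update (fun _ => 1) v (spMap n (Ov v).subtype A)

open scoped Classical in
theorem fam_self (v : Pl F) (A : Sp n (Ov v)) : fam v A v = spMap n (Ov v).subtype A :=
  Function.update_self _ _ _

open scoped Classical in
theorem fam_ne (v w : Pl F) (h : w ≠ v) (A : Sp n (Ov v)) : fam v A w = 1 :=
  Function.update_of_ne h _ _

theorem fam_int (v : Pl F) (A : Sp n (Ov v)) (w : Pl F) (i j : Fin n ⊕ Fin n) :
    Valued.v ((fam v A w).1 i j) ≤ 1 := by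
  by_cases h : w = v
  · subst h
    rw [fam_self]
    exact (A.1 i j).2
  · rw [fam_ne v w h]
    exact one_int w i j

theorem ex_lam (v : Pl F) (A : Sp n (Ov v)) : ∃ x : Sp n (Af F), ∀ w, comp F n w x = fam v A w :=
  glue _ (fam_int v A)

/-- the extension by `1` outside `v` -/
def lam (n : ℕ) (v : Pl F) : Sp n (Ov v) →* Sp n (Af F) where
  toFun A := (ex_lam v A).choose
  map_one' := by
    apply sp_ext
    intro w
    rw [(ex_lam v 1).choose_spec w, map_one]
    by_cases h : w = v
    · subst h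
      rw [fam_self, map_one]
    · rw [fam_ne v w h]
  map_mul' A B := by
    apply sp_ext
    intro w
    rw [map_mul, (ex_lam v _).choose_spec w, (ex_lam v _).choose_spec w,
      (ex_lam v _).choose_spec w]
    by_cases h : w = v
    · subst h
      rw [fam_self, fam_self, fam_self, map_mul]
    · rw [fam_ne v w h, fam_ne v w h, fam_ne v w h, one_mul]

theorem comp_lam (v w : Pl F) (A : Sp n (Ov v)) : comp F n w (lam n v A) = fam v A w :=
  (ex_lam v A).choose_spec w

/-- integrality in terms of the components -/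
theorem mem_US1 (g : Sp n (Af F)) :
    g ∈ US F n 1 ↔ ∀ w i j, Valued.v ((comp F n w g).1 i j) ≤ 1 := by
  rw [mem_US]
  have h1 : ∀ w : Pl F, Valued.v (((1 : ℕ) : Af F) w) = 1 := by
    intro w
    rw [Nat.cast_one]
    exact map_one _
  have h2 : ∀ i j (w : Pl F), ((g.1 - 1) i j) w =
      (comp F n w g).1 i j -
        (1 : Matrix (Fin n ⊕ Fin n) (Fin n ⊕ Fin n) (w.adicCompletion F)) i j := by
    intro i j w
    have e : (1 : Matrix (Fin n ⊕ Fin n) (Fin n ⊕ Fin n) (w.adicCompletion F)) i j =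
        ((1 : Matrix (Fin n ⊕ Fin n) (Fin n ⊕ Fin n) (Af F)) i j) w := by
      rw [Matrix.one_apply, Matrix.one_apply]
      split_ifs <;> rfl
    rw [e, Q4.SPC.comp_apply]
    rfl
  constructor
  · intro h w i j
    have h3 := h i j w
    rw [h1, h2] at h3
    have h4 : (comp F n w g).1 i j = ((comp F n w g).1 i j -
      (1 : Matrix (Fin n ⊕ Fin n) (Fin n ⊕ Fin n) (w.adicCompletion F)) i j) +
      (1 : Matrix (Fin n ⊕ Fin n) (Fin n ⊕ Fin n) (w.adicCompletion F)) i j := by ring
    rw [h4]
    exact (Valued.v.map_add _ _).trans (max_le h3 (one_int w i j))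
  · intro h i j w
    rw [h1, h2]
    exact (Valuation.map_sub _ _ _).trans (max_le (h w i j) (one_int w i j))

theorem lam_mem (v : Pl F) (A : Sp n (Ov v)) : lam n v A ∈ KS F n v := by
  rw [mem_KS, mem_US1, atPl_iff]
  refine ⟨fun w i j => ?_, fun w hw => ?_⟩
  · rw [comp_lam]
    exact fam_int v A w i j
  · rw [comp_lam, fam_ne v w hw]

theorem lam_surj (v : Pl F) (g : Sp n (Af F)) (hg : g ∈ KS F n v) : ∃ A, lam n v A = g := by
  rw [mem_KS, mem_US1, atPl_iff] at hg
  let X : Matrix (Fin n ⊕ Fin n) (Fin n ⊕ Fin n) (Ov v) := fun i j =>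
    ⟨(comp F n v g).1 i j, hg.1 v i j⟩
  have hX : X.map (Ov v).subtype = (comp F n v g).1 := rfl
  have hinj : Function.Injective
      (fun M : Matrix (Fin n ⊕ Fin n) (Fin n ⊕ Fin n) (Ov v) => M.map (Ov v).subtype) := by
    intro M N h
    refine Matrix.ext fun i j => Subtype.ext ?_
    exact congrFun (congrFun h i) j
  have hmem : X ∈ Matrix.symplecticGroup (Fin n) (Ov v) := by
    rw [SymplecticGroup.mem_iff]
    apply hinj
    change (X * J (Fin n) (Ov v) * Xᵀ).map (Ov v).subtype = (J (Fin n) (Ov v)).map (Ov v).subtype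
    rw [Matrix.map_mul, Matrix.map_mul, J_map, Matrix.transpose_map, hX]
    exact SymplecticGroup.mem_iff.1 (comp F n v g).2
  refine ⟨⟨X, hmem⟩, sp_ext fun w => ?_⟩
  rw [comp_lam]
  by_cases h : w = v
  · subst h
    rw [fam_self]
    exact Subtype.ext hX
  · rw [fam_ne v w h, hg.2 w h]

theorem unit_iff (v : Pl F) (x : Ov v) : IsUnit x ↔ IsLocalRing.residue (Ov v) x ≠ 0 := by
  rw [Ne, IsLocalRing.residue_eq_zero_iff, IsLocalRing.mem_maximalIdeal, mem_nonunits_iff, not_not]

theorem ex_unit (v : Pl F) (h : qv v ≠ 2) : ∃ u : Ov v, IsUnit u ∧ IsUnit (u - 1) := by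
  by_contra hc
  push Not at hc
  apply h
  rw [← card_kap v]
  have h01 : ∀ y : kap v, y = 0 ∨ y = 1 := by
    intro y
    obtain ⟨x, rfl⟩ := IsLocalRing.residue_surjective y
    by_cases hx : IsLocalRing.residue (Ov v) x = 0
    · exact Or.inl hx
    · have h1 := hc x ((unit_iff v x).2 hx)
      rw [unit_iff, not_not, map_sub, map_one, sub_eq_zero] at h1
      exact Or.inr h1
  have hfin := fin_kap v
  have e : (Set.univ : Set (kap v)) = {0, 1} := by
    ext y
    simp only [Set.mem_univ, Set.mem_insert_iff, Set.mem_singleton_iff, true_iff]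
    exact h01 y
  rw [← Set.ncard_univ, e, Set.ncard_pair zero_ne_one]

theorem tSE2 : SE2 := by
  intro hSA hSE1 F _ _ n hn v hq A _ φ hφ g hg
  obtain ⟨B, rfl⟩ := lam_surj v g hg
  let f : Sp n (Ov v) →* Multiplicative A :=
    MonoidHom.mk' (fun B => Multiplicative.ofAdd (φ (lam n v B))) (fun B C => by
      rw [map_mul, hφ _ (lam_mem v B) _ (lam_mem v C)]
      rfl)
  have hB : B ∈ commutator (Sp n (Ov v)) := by
    have h1 := hSA (Ov v) Per.sr1_local n B
    refine (Subgroup.closure_le _).2 ?_ h1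
    intro x hx
    exact hSE1 (Ov v) n hn (fun h2 => ex_unit v (hq h2)) x hx
  have hk := Abelianization.commutator_subset_ker f hB
  exact hk

end Pool.Agent.Q5.SPC

end
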