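import Pool.Agent.Q4.SPC.Stm

/-!
# Project SPC (helper4), job SH: strong approximation for the symplectic group (helper5)
-/

set_option autoImplicit false

open IsDedekindDomain NumberField Matrix Q4.GLC

namespace Pool.Agent.Q5.SPC

open Q4.SPC

section
variable {R R' : Type} [CommRing R] [CommRing R'] {n : ℕ}

theorem spMap_up (f : R →+* R') (S : Matrix (Fin n) (Fin n) R) (hS : Sᵀ = S) :
    spMap n f (up S hS) = up (S.map f) (by rw [← Matrix.transpose_map, hS]) := by
  refine Subtype.ext ?_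
  change (fromBlocks 1 S 0 1).map f = fromBlocks 1 (S.map f) 0 1
  rw [fromBlocks_map]
  simp [Matrix.map_zero f (map_zero f), Matrix.map_one f (map_zero f) (map_one f)]

theorem spMap_lo (f : R →+* R') (S : Matrix (Fin n) (Fin n) R) (hS : Sᵀ = S) :
    spMap n f (lo S hS) = lo (S.map f) (by rw [← Matrix.transpose_map, hS]) := by
  refine Subtype.ext ?_
  change (fromBlocks 1 0 S 1).map f = fromBlocks 1 0 (S.map f) 1
  rw [fromBlocks_map]
  simp [Matrix.map_zero f (map_zero f), Matrix.map_one f (map_zero f) (map_one f)]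

theorem transv_map (f : R →+* R') (i j : Fin n) (b : R) :
    (transvection i j b).map f = transvection i j (f b) := by
  ext p q
  rw [Matrix.map_apply, transvection, transvection, Matrix.add_apply, Matrix.add_apply, map_add,
    Matrix.single_apply, Matrix.single_apply, Matrix.one_apply, Matrix.one_apply]
  split_ifs <;> simp

theorem spMap_lvt (f : R →+* R') (i j : Fin n) (h : i ≠ j) (b : R) :
    spMap n f (lvt i j h b) = lvt i j h (f b) := by
  refine Subtype.ext ?_
  change (fromBlocks (transvection i j b) 0 0 (transvection j i (-b))).map f =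
    fromBlocks (transvection i j (f b)) 0 0 (transvection j i (-(f b)))
  rw [fromBlocks_map, transv_map, transv_map, map_neg]
  simp [Matrix.map_zero f (map_zero f)]

theorem up_congr {S T : Matrix (Fin n) (Fin n) R} (e : S = T) (hS : Sᵀ = S) (hT : Tᵀ = T) :
    up S hS = up T hT := by
  subst e; rfl

theorem lo_congr {S T : Matrix (Fin n) (Fin n) R} (e : S = T) (hS : Sᵀ = S) (hT : Tᵀ = T) :
    lo S hS = lo T hT := by
  subst e; rfl

end

variable {F : Type} [Field F] [NumberField F] {n : ℕ}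

theorem up_mem {M : ℕ} (S : Matrix (Fin n) (Fin n) (Af F)) (hS : Sᵀ = S)
    (h : ∀ i j, DvdN M (S i j)) : up S hS ∈ US F n M := by
  rw [mem_US]
  have e : (up S hS).1 - 1 = fromBlocks 0 S 0 0 := by
    change fromBlocks 1 S 0 1 - 1 = _
    rw [← fromBlocks_one, sub_eq_add_neg, fromBlocks_neg, fromBlocks_add]
    simp
  rw [e]
  rintro (i | i) (j | j)
  · exact dvdN_zero M
  · exact h i j
  · exact dvdN_zero M
  · exact dvdN_zero M

theorem lo_mem {M : ℕ} (S : Matrix (Fin n) (Fin n) (Af F)) (hS : Sᵀ = S)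
    (h : ∀ i j, DvdN M (S i j)) : lo S hS ∈ US F n M := by
  rw [mem_US]
  have e : (lo S hS).1 - 1 = fromBlocks 0 0 S 0 := by
    change fromBlocks 1 0 S 1 - 1 = _
    rw [← fromBlocks_one, sub_eq_add_neg, fromBlocks_neg, fromBlocks_add]
    simp
  rw [e]
  rintro (i | i) (j | j)
  · exact dvdN_zero M
  · exact dvdN_zero M
  · exact h i j
  · exact dvdN_zero M

theorem single_dvd {M : ℕ} (i j : Fin n) {a : Af F} (h : DvdN M a) (p q : Fin n) :
    DvdN M (Matrix.single i j a p q) := by
  rw [Matrix.single_apply]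
  split_ifs
  · exact h
  · exact dvdN_zero M

theorem lvt_mem {M : ℕ} (i j : Fin n) (h : i ≠ j) {b : Af F} (hb : DvdN M b) :
    lvt i j h b ∈ US F n M := by
  rw [mem_US]
  have e : (lvt i j h b).1 - 1 = fromBlocks (Matrix.single i j b) 0 0 (Matrix.single j i (-b)) := by
    change fromBlocks (transvection i j b) 0 0 (transvection j i (-b)) - 1 = _
    rw [← fromBlocks_one, sub_eq_add_neg, fromBlocks_neg, fromBlocks_add]
    simp [transvection]
  rw [e]
  rintro (p | p) (q | q)
  · exact single_dvd i j hb p q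
  · exact dvdN_zero M
  · exact dvdN_zero M
  · exact single_dvd j i hb.neg p q

/-- symmetric approximation -/
theorem sym_app (hApp : SApp) (S : Matrix (Fin n) (Fin n) (Af F)) (hS : Sᵀ = S) {M : ℕ}
    (hM : 1 ≤ M) : ∃ T : Matrix (Fin n) (Fin n) F, Tᵀ = T ∧
      ∀ i j, DvdN M (S i j - algebraMap F (Af F) (T i j)) := by
  choose α hα using fun i j => hApp F (S i j) M hM
  refine ⟨Matrix.of fun i j => if i ≤ j then α i j else α j i, ?_, ?_⟩
  · ext i j
    simp only [Matrix.transpose_apply, Matrix.of_apply]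
    rcases lt_trichotomy i j with h | h | h
    · rw [if_neg (not_le.2 h), if_pos h.le]
    · subst h; rfl
    · rw [if_pos h.le, if_neg (not_le.2 h)]
  · intro i j
    simp only [Matrix.of_apply]
    split_ifs with h
    · exact hα i j
    · have e : S i j = S j i := congrFun (congrFun hS j) i
      rw [e]
      exact hα j i

theorem dS_up (T : Matrix (Fin n) (Fin n) F) (hT : Tᵀ = T) :
    dS F n (up T hT) = up (T.map (algebraMap F (Af F))) (by rw [← Matrix.transpose_map, hT]) :=
  spMap_up _ T hT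

theorem dS_lo (T : Matrix (Fin n) (Fin n) F) (hT : Tᵀ = T) :
    dS F n (lo T hT) = lo (T.map (algebraMap F (Af F))) (by rw [← Matrix.transpose_map, hT]) :=
  spMap_lo _ T hT

theorem dS_lvt (i j : Fin n) (h : i ≠ j) (b : F) :
    dS F n (lvt i j h b) = lvt i j h (algebraMap F (Af F) b) :=
  spMap_lvt _ i j h b

theorem el_app (hApp : SApp) (s : Sp n (Af F)) (hs : IsEl 1 s) (M : ℕ) (hM : 1 ≤ M) :
    ∃ γ : Sp n F, (dS F n γ)⁻¹ * s ∈ US F n M := by
  rcases hs with ⟨S, hS, e⟩ | ⟨S, hS, e⟩ | ⟨i, j, hij, b, e⟩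
  · obtain ⟨T, hT, h⟩ := sym_app hApp S hS hM
    refine ⟨up T hT, ?_⟩
    have e1 : s = up S hS := Subtype.ext (by rw [e, one_smul]; rfl)
    rw [e1, dS_up, up_inv, up_mul]
    refine up_mem _ _ fun i j => ?_
    have e2 : (-T.map (algebraMap F (Af F)) + S) i j = S i j - algebraMap F (Af F) (T i j) := by
      rw [Matrix.add_apply, Matrix.neg_apply, Matrix.map_apply]
      ring
    rw [e2]
    exact h i j
  · obtain ⟨T, hT, h⟩ := sym_app hApp S hS hM
    refine ⟨lo T hT, ?_⟩
    have e1 : s = lo S hS := Subtype.ext (by rw [e, one_smul]; rfl)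
    rw [e1, dS_lo, lo_inv, lo_mul]
    refine lo_mem _ _ fun i j => ?_
    have e2 : (-T.map (algebraMap F (Af F)) + S) i j = S i j - algebraMap F (Af F) (T i j) := by
      rw [Matrix.add_apply, Matrix.neg_apply, Matrix.map_apply]
      ring
    rw [e2]
    exact h i j
  · obtain ⟨β, hβ⟩ := hApp F b M hM
    refine ⟨lvt i j hij β, ?_⟩
    have e1 : s = lvt i j hij b := Subtype.ext (by rw [e, one_mul]; rfl)
    rw [e1, dS_lvt, lvt_inv, lvt_mul]
    refine lvt_mem i j hij ?_
    rw [neg_add_eq_sub]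
    exact hβ

theorem tSH : SH := by
  intro hSA hSra hApp hSI F _ _ n s M hM
  have hs := hSA (Af F) (hSra F) n s
  revert M
  induction hs using Subgroup.closure_induction with
  | mem x hx => exact fun M hM => el_app hApp x hx M hM
  | one =>
    intro M _
    refine ⟨1, ?_⟩
    rw [map_one, inv_one, mul_one]
    exact Subgroup.one_mem _
  | mul a b _ _ ha hb =>
    intro M hM
    obtain ⟨g2, h2⟩ := hb M hM
    obtain ⟨M', hM', -, hc⟩ := hSI F n (dS F n g2)⁻¹ M hM
    obtain ⟨g1, h1⟩ := ha M' hM'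
    refine ⟨g1 * g2, ?_⟩
    have h3 := hc _ h1
    rw [inv_inv] at h3
    have e1 : (dS F n (g1 * g2))⁻¹ * (a * b) =
        ((dS F n g2)⁻¹ * ((dS F n g1)⁻¹ * a) * dS F n g2) * ((dS F n g2)⁻¹ * b) := by
      rw [map_mul]
      group
    rw [e1]
    exact Subgroup.mul_mem _ h3 h2
  | inv a _ ha =>
    intro M hM
    obtain ⟨M', hM', -, hc⟩ := hSI F n a M hM
    obtain ⟨g, h⟩ := ha M' hM'
    refine ⟨g⁻¹, ?_⟩
    have h3 := hc _ (Subgroup.inv_mem _ h)
    have e1 : (dS F n g⁻¹)⁻¹ * a⁻¹ = a * ((dS F n g)⁻¹ * a)⁻¹ * a⁻¹ := by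
      rw [map_inv]
      group
    rw [e1]
    exact h3

end Pool.Agent.Q5.SPC
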