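import Pool.Agent.Q4.SPC.Stm2
import Pool.Agent.Q213.SPCSO

/-!
# Project SPC (helper4), job SO2: invariant singular lines of quadratic forms (helper5)

Uses the lemmas of `Pool.Agent.Q213.SPCSO` (helper213).
-/

set_option autoImplicit false

open Matrix

namespace Pool.Agent.Q5.SPC

section gen
variable {k : Type} [Field k] {V : Type} [AddCommGroup V] [Module k V]

/-- an `ℓ`-group acting linearly in characteristic `ℓ` has fixed vectors -/
theorem fixedV (ℓ : ℕ) [Fact ℓ.Prime] [CharP k ℓ] (P : Subgroup (Module.End k V)ˣ)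
    [Finite P] (hP : IsPGroup ℓ P) (U : Submodule k V)
    (hU : ∀ p ∈ P, ∀ u ∈ U, (p : (Module.End k V)ˣ).1 u ∈ U) (u0 : V) (hu0 : u0 ∈ U)
    (hne : u0 ≠ 0) : ∃ u ∈ U, u ≠ 0 ∧ ∀ p ∈ P, (p : (Module.End k V)ˣ).1 u = u := by
  classical
  let _ : Algebra (ZMod ℓ) k := ZMod.algebra k ℓ
  let _ : Module (ZMod ℓ) V := Module.compHom V (algebraMap (ZMod ℓ) k)
  have hsmul : ∀ (a : ZMod ℓ) (x : V), a • x = algebraMap (ZMod ℓ) k a • x := fun _ _ => rfl
  let S : Set V := Set.range fun p : P => (p : (Module.End k V)ˣ).1 u0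
  have hS : S.Finite := Set.finite_range _
  let W : Submodule (ZMod ℓ) V := Submodule.span (ZMod ℓ) S
  have : Module.Finite (ZMod ℓ) W := Module.Finite.span_of_finite (ZMod ℓ) hS
  have : Finite W := Module.finite_of_finite (ZMod ℓ)
  have hW : ∀ p : P, ∀ w ∈ W, (p : (Module.End k V)ˣ).1 w ∈ W := by
    intro p w hw
    induction hw using Submodule.span_induction with
    | mem x hx =>
      obtain ⟨q, rfl⟩ := hx
      exact Submodule.subset_span ⟨p * q, rfl⟩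
    | zero => simp
    | add x y _ _ hx hy =>
      rw [map_add]
      exact W.add_mem hx hy
    | smul a x _ hx =>
      rw [hsmul, map_smul, ← hsmul]
      exact W.smul_mem a hx
  let _ : MulAction P W :=
    { smul := fun p w => ⟨(p : (Module.End k V)ˣ).1 w.1, hW p w.1 w.2⟩
      one_smul := fun w => Subtype.ext rfl
      mul_smul := fun p q w => Subtype.ext rfl }
  have hsm : ∀ (p : P) (w : W), ((p • w : W) : V) = (p : (Module.End k V)ˣ).1 w.1 :=
    fun _ _ => rfl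
  have hu0W : u0 ∈ W := Submodule.subset_span ⟨1, rfl⟩
  have : Nontrivial W := ⟨⟨⟨u0, hu0W⟩, 0, fun h => hne (congrArg Subtype.val h)⟩⟩
  have hcard : ℓ ∣ Nat.card W := by
    rw [Module.natCard_eq_pow_finrank (K := ZMod ℓ) (V := W), Nat.card_zmod]
    exact dvd_pow_self ℓ (Module.finrank_pos (R := ZMod ℓ) (M := W)).ne'
  have h0 : (0 : W) ∈ MulAction.fixedPoints P W := by
    intro p
    apply Subtype.ext
    rw [hsm]
    simp
  obtain ⟨b, hb, hb0⟩ := hP.exists_fixed_point_of_prime_dvd_card_of_fixed_point W hcard h0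
  have hWU : ∀ w ∈ W, w ∈ U := by
    intro w hw
    induction hw using Submodule.span_induction with
    | mem x hx =>
      obtain ⟨q, rfl⟩ := hx
      exact hU q.1 q.2 u0 hu0
    | zero => exact U.zero_mem
    | add x y _ _ hx hy => exact U.add_mem hx hy
    | smul a x _ hx =>
      rw [hsmul]
      exact U.smul_mem _ hx
  refine ⟨b.1, hWU b.1 b.2, fun h => hb0 (Subtype.ext h.symm), fun p hp => ?_⟩
  have := congrArg Subtype.val (hb ⟨p, hp⟩)
  rwa [hsm] at this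

/-- every nonzero stable subspace contains an eigenvector of `g` which is fixed by `N` -/
theorem eigenV [IsAlgClosed k] [FiniteDimensional k V] (ℓ : ℕ) [Fact ℓ.Prime] [CharP k ℓ]
    {Q : Type} [Group Q] [Finite Q] (N : Subgroup Q) [hN : N.Normal] (r : Representation k Q V)
    (M : ℕ) (hr : ∀ n ∈ N, r n ^ (ℓ ^ M) = 1) (g : Q)
    (U : Submodule k V) (hU : ∀ q : Q, ∀ u ∈ U, r q u ∈ U) (hne : U ≠ ⊥) :
    ∃ u ∈ U, u ≠ 0 ∧ (∀ n ∈ N, r n u = u) ∧ ∃ a : k, r g u = a • u := by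
  classical
  have hmul : ∀ (a b : Q) (v : V), r (a * b) v = r a (r b v) := by
    intro a b v
    rw [map_mul]; rfl
  let ρ : Q →* (Module.End k V)ˣ := r.toHomUnits
  have hρ : ∀ q, (ρ q).1 = r q := fun q => rfl
  have hP : IsPGroup ℓ (N.map ρ) := by
    rintro ⟨p, n, hn, rfl⟩
    refine ⟨M, Subtype.ext (Units.ext ?_)⟩
    change (ρ n).1 ^ (ℓ ^ M) = 1
    rw [hρ]
    exact hr n hn
  have : Finite (N.map ρ) := by
    have h : ((N : Set Q)).Finite := Set.toFinite _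
    exact (h.image ρ).to_subtype
  obtain ⟨u0, hu0, hu0ne⟩ := U.exists_mem_ne_zero_of_ne_bot hne
  obtain ⟨u1, hu1, hu1ne, hfix⟩ := fixedV ℓ (N.map ρ) hP U (by
    rintro p ⟨n, _, rfl⟩ u hu
    exact hU n u hu) u0 hu0 hu0ne
  let F : Submodule k V :=
    { carrier := {u | u ∈ U ∧ ∀ n ∈ N, r n u = u}
      add_mem' := by
        rintro a b ⟨ha, ha'⟩ ⟨hb, hb'⟩
        refine ⟨U.add_mem ha hb, fun n hn => ?_⟩
        rw [map_add, ha' n hn, hb' n hn]
      zero_mem' := ⟨U.zero_mem, fun n _ => map_zero _⟩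
      smul_mem' := by
        rintro c a ⟨ha, ha'⟩
        refine ⟨U.smul_mem c ha, fun n hn => ?_⟩
        rw [map_smul, ha' n hn] }
  have hF : ∀ u ∈ F, r g u ∈ F := by
    rintro u ⟨hu, hu'⟩
    refine ⟨hU g u hu, fun n hn => ?_⟩
    have h1 : n * g = g * (g⁻¹ * n * g) := by group
    rw [← hmul, h1, hmul, hu' (g⁻¹ * n * g)]
    have := hN.conj_mem n hn g⁻¹
    simpa using this
  let T : Module.End k F := (r g).restrict hF
  have hT : ∀ u : F, ((T u : F) : V) = r g u.1 := fun _ => rfl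
  have hu1F : u1 ∈ F := ⟨hu1, fun n hn => hfix (ρ n) ⟨n, hn, rfl⟩⟩
  have : Nontrivial F := ⟨⟨⟨u1, hu1F⟩, 0, fun h => hu1ne (congrArg Subtype.val h)⟩⟩
  obtain ⟨a, ha⟩ := Module.End.exists_eigenvalue T
  obtain ⟨v, hv⟩ := ha.exists_hasEigenvector
  refine ⟨v.1, v.2.1, fun h => hv.2 (Subtype.ext h), v.2.2, a, ?_⟩
  have := congrArg Subtype.val hv.apply_eq_smul
  exact this

/-- a vector fixed by `N` and an eigenvector of a generator of `Q / N` is an eigenvector of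
all elements -/
theorem allV {Q : Type} [Group Q] (N : Subgroup Q)
    (r : Representation k Q V) (g : Q)
    (hg : ∀ q : Q, ∃ j : ℤ, ∃ n ∈ N, q = g ^ j * n) (u : V) (hu : u ≠ 0)
    (hn : ∀ n ∈ N, r n u = u) (a : k) (ha : r g u = a • u) (q : Q) :
    ∃ b : k, r q u = b • u := by
  have hmul : ∀ (a b : Q) (v : V), r (a * b) v = r a (r b v) := by
    intro a b v
    rw [map_mul]; rfl
  have h1r : ∀ v : V, r 1 v = v := fun v => by rw [map_one]; rfl
  have ha0 : a ≠ 0 := by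
    rintro rfl
    apply hu
    have h1 : r (g⁻¹ * g) u = 0 := by
      rw [hmul, ha, zero_smul, map_zero]
    rwa [inv_mul_cancel, h1r] at h1
  have hinv : r g⁻¹ u = a⁻¹ • u := by
    have h1 : r (g⁻¹ * g) u = a • r g⁻¹ u := by
      rw [hmul, ha, map_smul]
    rw [inv_mul_cancel, h1r] at h1
    rw [eq_inv_smul_iff₀ ha0]
    exact h1.symm
  have hnat : ∀ (x : Q) (c : k), r x u = c • u → ∀ i : ℕ, ∃ b : k, r (x ^ i) u = b • u := by
    intro x c hx i
    induction i with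
    | zero => exact ⟨1, by rw [pow_zero, h1r, one_smul]⟩
    | succ i ih =>
      obtain ⟨b, hb⟩ := ih
      refine ⟨c * b, ?_⟩
      rw [pow_succ, hmul, hx, map_smul, hb, smul_smul]
  obtain ⟨j, n, hnN, rfl⟩ := hg q
  rw [hmul, hn n hnN]
  obtain ⟨i, rfl | rfl⟩ := j.eq_nat_or_neg
  · obtain ⟨b, hb⟩ := hnat g a ha i
    exact ⟨b, by rw [zpow_natCast]; exact hb⟩
  · obtain ⟨b, hb⟩ := hnat g⁻¹ a⁻¹ hinv i
    exact ⟨b, by rw [_root_.zpow_neg, zpow_natCast, ← inv_pow]; exact hb⟩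

end gen

section main
variable {k : Type} [Field k]

open Q213.SPCSO

/-- the argument of `Q213.SPCSO.t_SO` for possibly degenerate forms -/
theorem so_core [IsAlgClosed k] (ℓ : ℕ) [Fact ℓ.Prime] [CharP k ℓ] (m : ℕ) (hm : 3 ≤ m)
    (Q : Type) [Group Q] [Finite Q] (N : Subgroup Q) [N.Normal] (g : Q)
    (hg : ∀ q : Q, ∃ j : ℤ, ∃ n ∈ N, q = g ^ j * n)
    (B : Matrix (Fin m) (Fin m) k) (hB : Bᵀ = B)
    (ρ : Q →* GL (Fin m) k)
    (hinv : ∀ q v w, bf B ((ρ q).1 *ᵥ v) ((ρ q).1 *ᵥ w) = bf B v w)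
    (hρN : ∀ g ∈ N, (ρ g).1.charpoly = (Polynomial.X - Polynomial.C 1) ^ m) :
    ∃ w : Fin m → k, w ≠ 0 ∧ w ⬝ᵥ (B *ᵥ w) = 0 ∧ ∀ g, ∃ a : k, (ρ g).1 *ᵥ w = a • w := by
  classical
  have : NeZero m := ⟨by omega⟩
  have hmul : ∀ (a b : Q) (v : Fin m → k), (ρ (a * b)).1 *ᵥ v = (ρ a).1 *ᵥ ((ρ b).1 *ᵥ v) := by
    intro a b v
    simp [Matrix.mulVec_mulVec]
  have hort : ∀ u : Fin m → k, (∀ q : Q, ∃ b : k, (ρ q).1 *ᵥ u = b • u) →
      ∀ q : Q, ∀ v : Fin m → k, bf B u v = 0 → bf B u ((ρ q).1 *ᵥ v) = 0 := by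
    intro u hu q v hv
    obtain ⟨b, hb⟩ := hu q⁻¹
    have h1 : bf B ((ρ q).1 *ᵥ ((ρ q⁻¹).1 *ᵥ u)) ((ρ q).1 *ᵥ v) = bf B ((ρ q⁻¹).1 *ᵥ u) v :=
      hinv q _ _
    rw [← hmul, mul_inv_cancel, map_one] at h1
    rw [hb, bf_comm B hB (b • u) v, bf_smul_right, bf_comm B hB v u, hv, mul_zero] at h1
    simpa using h1
  have hsign : ∀ (u : Fin m → k) (a : k), bf B u u ≠ 0 → (ρ g).1 *ᵥ u = a • u → a = 1 ∨ a = -1 := by
    intro u a hu ha
    have h1 := hinv g u u
    rw [ha, bf_smul_right, bf_comm B hB (a • u) u, bf_smul_right] at h1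
    have h2 : (a * a - 1) * bf B u u = 0 := by linear_combination h1
    have h3 : a * a = 1 := by
      rcases mul_eq_zero.1 h2 with h | h
      · exact sub_eq_zero.1 h
      · exact absurd h hu
    exact mul_self_eq_one_iff.1 h3
  have hfin : Module.finrank k (Fin m → k) = m := by simp
  obtain ⟨w1, -, h1ne, h1N, a1, h1a⟩ := exists_eigen ℓ N ρ hρN g ⊤ (fun _ _ _ => trivial) (by
    intro h
    have h2 := congrArg (fun W : Submodule k (Fin m → k) => Module.finrank k W) h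
    simp at h2
    omega)
  have h1all := eigen_all N ρ g hg w1 h1ne h1N a1 h1a
  by_cases h1i : bf B w1 w1 = 0
  · exact ⟨w1, h1ne, h1i, h1all⟩
  obtain ⟨w2, h2U, h2ne, h2N, a2, h2a⟩ := exists_eigen ℓ N ρ hρN g (LinearMap.ker (bfl B w1))
    (fun q u hu => hort w1 h1all q u hu) (LinearMap.ker_ne_bot_of_finrank_lt (by
      rw [hfin, Module.finrank_self]
      omega))
  have h12 : bf B w1 w2 = 0 := h2U
  have h2all := eigen_all N ρ g hg w2 h2ne h2N a2 h2a
  by_cases h2i : bf B w2 w2 = 0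
  · exact ⟨w2, h2ne, h2i, h2all⟩
  obtain ⟨w3, h3U, h3ne, h3N, a3, h3a⟩ := exists_eigen ℓ N ρ hρN g
    (LinearMap.ker ((bfl B w1).prod (bfl B w2)))
    (fun q u hu => by
      have hu' : bf B w1 u = 0 ∧ bf B w2 u = 0 := Prod.ext_iff.1 hu
      exact Prod.ext (hort w1 h1all q u hu'.1) (hort w2 h2all q u hu'.2))
    (LinearMap.ker_ne_bot_of_finrank_lt (by
      rw [hfin, Module.finrank_prod, Module.finrank_self]
      omega))
  have h3U' : bf B w1 w3 = 0 ∧ bf B w2 w3 = 0 := Prod.ext_iff.1 h3U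
  have h3all := eigen_all N ρ g hg w3 h3ne h3N a3 h3a
  by_cases h3i : bf B w3 w3 = 0
  · exact ⟨w3, h3ne, h3i, h3all⟩
  have hcases : a1 = a2 ∨ a1 = a3 ∨ a2 = a3 := by
    rcases hsign w1 a1 h1i h1a with h1 | h1 <;> rcases hsign w2 a2 h2i h2a with h2 | h2 <;>
      rcases hsign w3 a3 h3i h3a with h3 | h3 <;> simp [h1, h2, h3]
  rcases hcases with rfl | rfl | rfl
  · exact combine B hB N ρ g hg w1 w2 h1N h2N a1 h1a h2a h12 h1i h2i
  · exact combine B hB N ρ g hg w1 w3 h1N h3N a1 h1a h3a h3U'.1 h1i h3i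
  · exact combine B hB N ρ g hg w2 w3 h2N h3N a2 h2a h3a h3U'.2 h2i h3i

/-- the matrix of the polar form -/
noncomputable def pm {m : ℕ} (q : QuadraticForm k (Fin m → k)) : Matrix (Fin m) (Fin m) k :=
  LinearMap.toMatrix₂' k (QuadraticMap.polarBilin q)

theorem bf_pm {m : ℕ} (q : QuadraticForm k (Fin m → k)) (v w : Fin m → k) :
    bf (pm q) v w = QuadraticMap.polar q v w := by
  unfold bf pm
  rw [← Matrix.toLinearMap₂'_apply', Matrix.toLinearMap₂'_toMatrix']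
  rfl

theorem pm_symm {m : ℕ} (q : QuadraticForm k (Fin m → k)) : (pm q)ᵀ = pm q := by
  ext i j
  unfold pm
  rw [Matrix.transpose_apply, LinearMap.toMatrix₂'_apply, LinearMap.toMatrix₂'_apply]
  exact QuadraticMap.polar_comm _ _ _

theorem polar_inv {m : ℕ} (q : QuadraticForm k (Fin m → k)) (M : Matrix (Fin m) (Fin m) k)
    (h : ∀ w, q (M *ᵥ w) = q w) (v w : Fin m → k) :
    QuadraticMap.polar q (M *ᵥ v) (M *ᵥ w) = QuadraticMap.polar q v w := by
  simp only [QuadraticMap.polar]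
  rw [← Matrix.mulVec_add, h, h, h]

/-- the action on the quotient by a stable subspace -/
noncomputable def quo {m : ℕ} {Q : Type} [Group Q] (ρ : Q →* GL (Fin m) k)
    (W : Submodule k (Fin m → k)) (hW : ∀ q : Q, ∀ u ∈ W, (ρ q).1 *ᵥ u ∈ W) :
    Representation k Q ((Fin m → k) ⧸ W) where
  toFun q := W.mapQ W (Matrix.mulVecLin (ρ q).1) (fun u hu => hW q u hu)
  map_one' := by
    ext x
    simp
  map_mul' a b := by
    apply LinearMap.ext
    intro x
    obtain ⟨x, rfl⟩ := W.mkQ_surjective x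
    change W.mkQ ((ρ (a * b)).1 *ᵥ x) = W.mkQ ((ρ a).1 *ᵥ ((ρ b).1 *ᵥ x))
    rw [Matrix.mulVec_mulVec, map_mul]
    rfl

theorem quo_mk {m : ℕ} {Q : Type} [Group Q] (ρ : Q →* GL (Fin m) k)
    (W : Submodule k (Fin m → k)) (hW : ∀ q : Q, ∀ u ∈ W, (ρ q).1 *ᵥ u ∈ W) (q : Q)
    (x : Fin m → k) : quo ρ W hW q (W.mkQ x) = W.mkQ ((ρ q).1 *ᵥ x) := rfl

/-- characteristic two -/
theorem so_two [IsAlgClosed k] [CharP k 2] (m : ℕ) (hm : 3 ≤ m)
    (Q : Type) [Group Q] [Finite Q] (N : Subgroup Q) [N.Normal] (g : Q)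
    (hg : ∀ q : Q, ∃ j : ℤ, ∃ n ∈ N, q = g ^ j * n)
    (q : QuadraticForm k (Fin m → k)) (ρ : Q →* GL (Fin m) k)
    (hρq : ∀ g w, q ((ρ g).1 *ᵥ w) = q w)
    (hρN : ∀ g ∈ N, (ρ g).1.charpoly = (Polynomial.X - Polynomial.C 1) ^ m) :
    ∃ w : Fin m → k, w ≠ 0 ∧ q w = 0 ∧ ∀ g, ∃ a : k, (ρ g).1 *ᵥ w = a • w := by
  classical
  have : NeZero m := ⟨by omega⟩
  have : Fact (Nat.Prime 2) := ⟨Nat.prime_two⟩
  have hfin : Module.finrank k (Fin m → k) = m := by simp
  have h2 : (2 : k) = 0 := by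
    have := CharP.cast_eq_zero k 2
    exact_mod_cast this
  obtain ⟨w1, -, h1ne, h1N, a1, h1a⟩ := exists_eigen 2 N ρ hρN g ⊤ (fun _ _ _ => trivial) (by
    intro h
    have h2 := congrArg (fun W : Submodule k (Fin m → k) => Module.finrank k W) h
    simp at h2
    omega)
  have h1all := eigen_all N ρ g hg w1 h1ne h1N a1 h1a
  by_cases h1i : q w1 = 0
  · exact ⟨w1, h1ne, h1i, h1all⟩
  have hpp : ∀ v, QuadraticMap.polar q v v = 0 := by
    intro v
    rw [QuadraticMap.polar_self]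
    have : (2 : ℕ) • q v = (2 : k) * q v := by rw [nsmul_eq_mul]; norm_num
    rw [this, h2, zero_mul]
  let W : Submodule k (Fin m → k) := Submodule.span k {w1}
  have hW : ∀ q : Q, ∀ u ∈ W, (ρ q).1 *ᵥ u ∈ W := by
    intro p u hu
    obtain ⟨c, rfl⟩ := Submodule.mem_span_singleton.1 hu
    obtain ⟨b, hb⟩ := h1all p
    rw [Matrix.mulVec_smul, hb]
    exact Submodule.mem_span_singleton.2 ⟨c * b, by rw [mul_smul]⟩
  let U : Submodule k (Fin m → k) := LinearMap.ker (QuadraticMap.polarBilin q w1)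
  have hUm : ∀ u, u ∈ U ↔ QuadraticMap.polar q w1 u = 0 := fun u => Iff.rfl
  have hU : ∀ p : Q, ∀ u ∈ U, (ρ p).1 *ᵥ u ∈ U := by
    intro p u hu
    rw [hUm] at hu ⊢
    obtain ⟨b, hb⟩ := h1all p⁻¹
    have h3 := polar_inv q (ρ p).1 (hρq p) ((ρ p⁻¹).1 *ᵥ w1) u
    have h4 : (ρ p).1 *ᵥ ((ρ p⁻¹).1 *ᵥ w1) = w1 := by
      rw [Matrix.mulVec_mulVec, ← Units.val_mul, ← map_mul, mul_inv_cancel, map_one,
        Units.val_one, Matrix.one_mulVec]
    rw [h4, hb, QuadraticMap.polar_smul_left, hu, smul_zero] at h3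
    exact h3
  -- the quotient
  let r := quo ρ W hW
  let U' : Submodule k ((Fin m → k) ⧸ W) := U.map W.mkQ
  have hU' : ∀ p : Q, ∀ u ∈ U', r p u ∈ U' := by
    rintro p _ ⟨u, hu, rfl⟩
    exact ⟨(ρ p).1 *ᵥ u, hU p u hu, rfl⟩
  have hWU : W ≤ U := by
    intro u hu
    obtain ⟨c, rfl⟩ := Submodule.mem_span_singleton.1 hu
    rw [hUm, QuadraticMap.polar_smul_right, hpp, smul_zero]
  have hfU : m ≤ Module.finrank k U + 1 := by
    have h3 := LinearMap.finrank_range_add_finrank_ker (QuadraticMap.polarBilin q w1)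
    have h4 : Module.finrank k (LinearMap.range (QuadraticMap.polarBilin q w1)) ≤ 1 := by
      have := Submodule.finrank_le (LinearMap.range (QuadraticMap.polarBilin q w1))
      rwa [Module.finrank_self] at this
    rw [hfin] at h3
    change _ + Module.finrank k U = m at h3
    omega
  have hne : U' ≠ ⊥ := by
    intro h
    have h3 : U ≤ W := by
      intro u hu
      have h4 : W.mkQ u ∈ U' := ⟨u, hu, rfl⟩
      rw [h, Submodule.mem_bot] at h4
      exact (Submodule.Quotient.mk_eq_zero W).1 h4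
    have h4 := Submodule.finrank_mono h3
    have h5 : Module.finrank k W = 1 := finrank_span_singleton h1ne
    omega
  have hr : ∀ n ∈ N, r n ^ (2 ^ m) = 1 := by
    intro n hn
    rw [← map_pow]
    apply LinearMap.ext
    intro x
    obtain ⟨x, rfl⟩ := W.mkQ_surjective x
    change quo ρ W hW (n ^ 2 ^ m) (W.mkQ x) = W.mkQ x
    rw [quo_mk, map_pow, Units.val_pow_eq_pow_val, unip_pow 2 (ρ n).1 (hρN n hn),
      Matrix.one_mulVec]
  obtain ⟨u', hu'U, hu'0, hu'N, a, hu'a⟩ := eigenV 2 N r m hr g U' hU' hne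
  have hall := allV N r g hg u' hu'0 hu'N a hu'a
  obtain ⟨w2, hw2U, rfl⟩ := hu'U
  have hw2W : w2 ∉ W := fun h => hu'0 ((Submodule.Quotient.mk_eq_zero W).2 h)
  have hw12 : QuadraticMap.polar q w1 w2 = 0 := hw2U
  obtain ⟨x, hx⟩ := IsAlgClosed.exists_pow_nat_eq (-(q w2 / q w1)) (n := 2) (by norm_num)
  have hadd : ∀ v w, q (v + w) = q v + q w + QuadraticMap.polar q v w := by
    intro v w
    simp only [QuadraticMap.polar]
    ring
  have hsm : ∀ (c : k) v, q (c • v) = c * c * q v := by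
    intro c v
    rw [QuadraticMap.map_smul, smul_eq_mul]
  have hqw : q (w2 + x • w1) = 0 := by
    rw [hadd, hsm, QuadraticMap.polar_smul_right, QuadraticMap.polar_comm, hw12, smul_zero,
      add_zero, ← pow_two, hx]
    field_simp
    ring
  have hpw : QuadraticMap.polar q (w2 + x • w1) w1 = 0 := by
    rw [QuadraticMap.polar_add_left, QuadraticMap.polar_smul_left, hpp, smul_zero, add_zero,
      QuadraticMap.polar_comm, hw12]
  refine ⟨w2 + x • w1, ?_, hqw, ?_⟩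
  · intro h
    apply hw2W
    have : w2 = (-x) • w1 := by
      rw [neg_smul]
      exact eq_neg_of_add_eq_zero_left h
    rw [this]
    exact Submodule.mem_span_singleton.2 ⟨-x, rfl⟩
  · intro p
    obtain ⟨b, hb⟩ := hall p
    obtain ⟨b1, hb1⟩ := h1all p
    have h3 : W.mkQ ((ρ p).1 *ᵥ w2 - b • w2) = 0 := by
      rw [map_sub, map_smul, ← hb]
      change W.mkQ ((ρ p).1 *ᵥ w2) - quo ρ W hW p (W.mkQ w2) = 0
      rw [quo_mk, sub_self]
    have h4 : (ρ p).1 *ᵥ w2 - b • w2 ∈ W := (Submodule.Quotient.mk_eq_zero W).1 h3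
    obtain ⟨c, hc⟩ := Submodule.mem_span_singleton.1 h4
    have h5 : (ρ p).1 *ᵥ (w2 + x • w1) = b • (w2 + x • w1) + (c + x * b1 - b * x) • w1 := by
      rw [Matrix.mulVec_add, Matrix.mulVec_smul, hb1]
      have h6 : (ρ p).1 *ᵥ w2 = b • w2 + c • w1 := by
        rw [hc]; abel
      rw [h6, smul_add, sub_smul, add_smul, smul_smul, smul_smul]
      abel
    have h6 := hρq p (w2 + x • w1)
    rw [h5, hadd, hsm, hsm, QuadraticMap.polar_smul_left, QuadraticMap.polar_smul_right, hpw,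
      hqw, smul_zero, smul_zero, mul_zero, zero_add, add_zero] at h6
    have h7 : c + x * b1 - b * x = 0 := by
      rcases mul_eq_zero.1 h6 with h | h
      · exact mul_self_eq_zero.1 h
      · exact absurd h h1i
    exact ⟨b, by rw [h5, h7, zero_smul, add_zero]⟩

end main

open Q213.SPCSO in
theorem tSO2 : Q4.SPC.SO2 := by
  intro k _ _ ℓ _ _ m hm Q _ _ N _ hcyc q ρ hρq hρN
  obtain ⟨x, hx⟩ := hcyc.exists_generator
  obtain ⟨g, rfl⟩ := QuotientGroup.mk_surjective x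
  have hg : ∀ q : Q, ∃ j : ℤ, ∃ n ∈ N, q = g ^ j * n := by
    intro q
    obtain ⟨j, hj⟩ := Subgroup.mem_zpowers_iff.1 (hx (q : Q ⧸ N))
    refine ⟨j, (g ^ j)⁻¹ * q, ?_, by group⟩
    rw [← QuotientGroup.mk_zpow] at hj
    exact QuotientGroup.eq.1 hj
  by_cases h2 : ℓ = 2
  · subst h2
    exact so_two m hm Q N g hg q ρ hρq hρN
  · have h2k : (2 : k) ≠ 0 := by
      intro h
      apply h2
      have h3 : ((2 : ℕ) : k) = 0 := by exact_mod_cast h
      rw [CharP.cast_eq_zero_iff k ℓ] at h3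
      exact ((Nat.prime_dvd_prime_iff_eq (Fact.out : ℓ.Prime) Nat.prime_two).1 h3)
    obtain ⟨w, hw0, hw, hall⟩ := so_core ℓ m hm Q N g hg (pm q) (pm_symm q) ρ (fun p v w => by
      rw [bf_pm, bf_pm]
      exact polar_inv q _ (hρq p) v w) hρN
    refine ⟨w, hw0, ?_, hall⟩
    have h3 : bf (pm q) w w = 0 := hw
    rw [bf_pm, QuadraticMap.polar_self] at h3
    have h4 : (2 : k) * q w = 0 := by
      rw [← h3]
      first
        | rfl
        | (rw [nsmul_eq_mul]; norm_num)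
    exact (mul_eq_zero.1 h4).resolve_left h2k

end Pool.Agent.Q5.SPC
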